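import Mathlib

set_option autoImplicit false

namespace Pool.Agent.Results.MP_d17388_co.Cex

open Finset

/-- The hypercube. -/
def Q (d : ℕ) : SimpleGraph (Fin d → Bool) where
  Adj x y := hammingDist x y = 1
  symm := ⟨fun x y h => by rwa [hammingDist_comm]⟩
  loopless := ⟨fun x h => by simp at h⟩

/-- One round of simultaneous forcing. -/
def step {V : Type} (G : SimpleGraph V) (S : Set V) : Set V :=
  S ∪ {w | ∃ v ∈ S, G.Adj v w ∧ ∀ u, G.Adj v u → u ∉ S → u = w}

/-- Minimum zero forcing set. -/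
def MinZF {V : Type} (G : SimpleGraph V) (S : Set V) : Prop :=
  (∃ t, (step G)^[t] S = Set.univ) ∧
    ∀ T : Set V, (∃ t, (step G)^[t] T = Set.univ) → S.ncard ≤ T.ncard

def fl {d : ℕ} (i : Fin d) (x : Fin d → Bool) : Fin d → Bool := fun j => if j = i then !x j else x j

theorem fl_fl {d : ℕ} (i : Fin d) (x : Fin d → Bool) : fl i (fl i x) = x := by
  funext j; unfold fl; split_ifs <;> simp

theorem adj {d : ℕ} (x y : Fin d → Bool) : (Q d).Adj x y ↔ ∃ i, y = fl i x := by
  simp only [Q, hammingDist, card_eq_one, Finset.ext_iff, mem_filter, mem_univ, true_and,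
    mem_singleton, funext_iff, fl]
  refine exists_congr fun i => forall_congr' fun j => ?_
  by_cases h : j = i <;> cases x j <;> cases y j <;> simp [h]

def τ (x : Fin 6 → Bool) : ℕ := 0x20a8a4000001004400901806800b34a2093000711cd401c0281e00002000003881ac000003c602 >>>
  (5 * ((x 0).toNat + 2 * (x 1).toNat + 4 * (x 2).toNat + 8 * (x 3).toNat + 16 * (x 4).toNat +
    32 * (x 5).toNat)) % 32

def m (x : Fin 6 → Bool) (i : Fin 6) (t : ℕ) : Prop :=
  τ (fl i x) ≤ t ∧ ∀ j, j ≠ i → τ (fl j (fl i x)) ≤ t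

instance (x : Fin 6 → Bool) (i : Fin 6) (t : ℕ) : Decidable (m x i t) :=
  inferInstanceAs (Decidable (_ ∧ _))

theorem tab : ∀ a b c d e f : Bool, τ ![a, b, c, d, e, f] ≤ 18 ∧ (0 < τ ![a, b, c, d, e, f] →
    ∃ i, m ![a, b, c, d, e, f] i (τ ![a, b, c, d, e, f] - 1)) ∧
    (1 < τ ![a, b, c, d, e, f] → ∀ i, ¬ m ![a, b, c, d, e, f] i (τ ![a, b, c, d, e, f] - 2)) := by
  decide +kernel

theorem tab' (x : Fin 6 → Bool) : τ x ≤ 18 ∧ (0 < τ x → ∃ i, m x i (τ x - 1)) ∧
    (1 < τ x → ∀ i, ¬ m x i (τ x - 2)) := by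
  have := tab (x 0) (x 1) (x 2) (x 3) (x 4) (x 5)
  rwa [show ![x 0, x 1, x 2, x 3, x 4, x 5] = x by funext i; fin_cases i <;> rfl] at this

theorem it (t : ℕ) : (step (Q 6))^[t] {x | τ x ≤ 0} = {x | τ x ≤ t} := by
  induction t with
  | zero => rfl
  | succ t ih =>
    rw [Function.iterate_succ_apply', ih]
    ext x
    obtain ⟨-, p, q⟩ := tab' x
    simp only [step, adj, Set.mem_union, Set.mem_ofPred_eq]
    constructor
    · rintro (h | ⟨v, h, ⟨i, rfl⟩, k⟩)
      · omega
      by_contra l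
      refine q (by omega) i ⟨by rw [fl_fl]; omega, fun j hj => ?_⟩
      rw [fl_fl]
      by_contra s
      have := congrFun (k _ ⟨j, rfl⟩ (by omega)) j
      simp [fl, hj] at this
    · intro h
      by_cases l : τ x ≤ t
      · exact Or.inl l
      obtain ⟨i, a, b⟩ := p (by omega)
      refine Or.inr ⟨fl i x, by omega, ⟨i, (fl_fl i x).symm⟩, ?_⟩
      rintro _ ⟨j, rfl⟩ s
      by_cases e : j = i
      · rw [e, fl_fl]
      · exact absurd ((b j e).trans (by omega)) s

def A : ((Fin 6 → Bool) → ZMod 2) →ₗ[ZMod 2] (Fin 6 → Bool) → ZMod 2 where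
  toFun f x := ∑ i, f (fl i x)
  map_add' f g := by funext x; simp [sum_add_distrib]
  map_smul' c f := by funext x; simp [mul_sum]

theorem AA (f : (Fin 6 → Bool) → ZMod 2) : A (A f) = 0 := by
  funext x
  have c : ∀ i j, fl j (fl i x) = fl i (fl j x) := fun i j => by
    funext k; unfold fl; split_ifs <;> rfl
  change ∑ i, ∑ j, f (fl j (fl i x)) = 0
  simp only [Fin.sum_univ_six, fl_fl, c 1 0, c 2 0, c 3 0, c 4 0, c 5 0, c 2 1, c 3 1, c 4 1, c 5 1,
    c 3 2, c 4 2, c 5 2, c 4 3, c 5 3, c 5 4]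
  ring_nf
  simp [show (6 : ZMod 2) = 0 from rfl, show (2 : ZMod 2) = 0 from rfl]

theorem low (T : Set (Fin 6 → Bool)) (t : ℕ) (h : (step (Q 6))^[t] T = Set.univ) :
    32 ≤ T.ncard := by
  classical
  have k : ∀ f, A f = 0 → ∀ t, (∀ x ∈ T, f x = 0) → ∀ x ∈ (step (Q 6))^[t] T, f x = 0 := by
    intro f hf t h0
    induction t using Nat.rec with
    | zero => exact h0
    | succ t ih =>
      rw [Function.iterate_succ_apply']
      rintro x (h | ⟨v, -, a, b⟩)
      · exact ih x h
      obtain ⟨i, rfl⟩ := (adj _ _).1 a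
      refine Eq.trans (Fintype.sum_eq_single (f := fun j => f (fl j v)) i
        fun j hj => ih _ ?_).symm (congrFun hf v)
      by_contra s
      have := congrFun (b _ ((adj _ _).2 ⟨j, rfl⟩) s) j
      simp [fl, hj] at this
  have a := LinearMap.finrank_le_finrank_of_injective
    (f := (LinearMap.funLeft (ZMod 2) (ZMod 2) (Subtype.val : T → Fin 6 → Bool)).comp A.ker.subtype)
    ((injective_iff_map_eq_zero _).2 fun f e => Subtype.ext (funext fun x =>
      k f f.2 t (fun y hy => congrFun e ⟨y, hy⟩) x (h ▸ trivial)))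
  have b := A.finrank_range_add_finrank_ker
  have c := Submodule.finrank_mono (show A.range ≤ A.ker by rintro _ ⟨f, rfl⟩; exact AA f)
  simp only [Module.finrank_fintype_fun_eq_card, Fintype.card_fun, Fintype.card_bool,
    Fintype.card_fin] at a b
  rw [← Nat.card_eq_fintype_card, Nat.card_coe_set_eq] at a
  omega

theorem result : ∃ S, MinZF (Q 6) S ∧ IsLeast {t | (step (Q 6))^[t] S = Set.univ} 18 := by
  have u : (step (Q 6))^[18] {x | τ x ≤ 0} = Set.univ :=
    (it 18).trans (Set.eq_univ_of_forall fun x => (tab' x).1)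
  refine ⟨{x | τ x ≤ 0}, ⟨⟨18, u⟩, fun T ⟨t, h⟩ => le_trans ?_ (low T t h)⟩, u, fun t h => ?_⟩
  · rw [← coe_filter_univ, Set.ncard_coe_finset]
    decide +kernel
  · have : τ ![true, true, false, false, false, true] ≤ t := ((it t).symm.trans h).ge trivial
    exact le_trans (by decide +kernel) this

end Pool.Agent.Results.MP_d17388_co.Cex
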